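import Pool.Agent.Helper93_ABCT.StmtK
import Pool.Agent.Helper32_ABCT.Api3

/-!
# KGEN: the coordinates of a flat cell are a generic point of the variety (MP_a17fcb_ag)
-/

set_option autoImplicit false

open MvPolynomial

namespace ABCT.H60

open ABCT FlatCell

theorem aeval_scale {ι K : Type} [Field K] [Algebra ℂ K] (ξ : ι → K) (c : K)
    (G : MvPolynomial ι ℂ) (n : ℕ) (hG : G.IsHomogeneous n) :
    aeval (fun i => c * ξ i) G = c ^ n * aeval ξ G := by
  rw [aeval_def, eval₂_eq, aeval_def, eval₂_eq, Finset.mul_sum]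
  refine Finset.sum_congr rfl fun μ hμ => ?_
  have hm : ∑ i ∈ μ.support, μ i = n := by
    have := hG (mem_support_iff.mp hμ)
    rw [Finsupp.weight_apply, Finsupp.sum] at this
    simpa using this
  have h2 : (∏ i ∈ μ.support, (c * ξ i) ^ μ i) = c ^ n * ∏ i ∈ μ.support, ξ i ^ μ i := by
    rw [← hm, ← Finset.prod_pow_eq_pow_sum, ← Finset.prod_mul_distrib]
    exact Finset.prod_congr rfl fun i _ => mul_pow _ _ _
  rw [h2]
  ring

theorem map_evN {σ R R' : Type} [CommSemiring R] [CommSemiring R'] (g : R →+* R') (x : σ → R)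
    (p : MvPolynomial σ ℕ) : g (PosGeom.evN x p) = PosGeom.evN (fun j => g (x j)) p := by
  rw [PosGeom.evN, PosGeom.evN, hom_eval₂]
  congr 1
  exact Subsingleton.elim _ _

/-- label degree -/
noncomputable def ldeg (S : FlatCell) : (S.V →₀ ℤ) →+ ℤ :=
  Finsupp.liftAddHom fun v => Sum.elim (fun _ => AddMonoidHom.id ℤ) (fun _ => 0) v

theorem ldeg_inl (S : FlatCell) (i : ℕ) (n : ℤ) : ldeg S (Finsupp.single (Sum.inl i) n) = n := by
  rw [ldeg, Finsupp.liftAddHom_apply_single]; rfl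

theorem ldeg_inr (S : FlatCell) (h : S.G) (n : ℤ) : ldeg S (Finsupp.single (Sum.inr h) n) = 0 := by
  rw [ldeg, Finsupp.liftAddHom_apply_single]; rfl

/-- exponents as an additive map -/
noncomputable def zx (V : Type) : (V →₀ ℕ) →+ (V →₀ ℤ) :=
  Finsupp.mapRange.addMonoidHom (Nat.castAddMonoidHom ℤ)

theorem zexp_eq {V : Type} (μ : V →₀ ℕ) : zexp μ = zx V μ := by
  ext v
  simp [zexp, zx]

theorem zx_single {V : Type} (v : V) (n : ℕ) :
    zx V (Finsupp.single v n) = Finsupp.single v (n : ℤ) := by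
  simp [zx]

theorem pol_ldeg (S : FlatCell) (I : Finset ℕ) (μ : S.V →₀ ℕ) (hμ : μ ∈ (S.pol I).support) :
    ldeg S (zexp μ) = I.card := by
  classical
  rw [FlatCell.pol, natpoly_support_mul] at hμ
  obtain ⟨a, ha, b, hb, rfl⟩ := hμ
  rw [zexp_eq, map_add, map_add]
  have h1 : ldeg S (zx S.V a) = I.card := by
    have h2 : (∏ i ∈ I, (X (Sum.inl i) : MvPolynomial S.V ℕ)) =
        monomial (∑ i ∈ I, Finsupp.single (Sum.inl i) 1) 1 := by
      rw [monomial_sum_one]
      rfl
    rw [h2, mem_support_iff, coeff_monomial] at ha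
    have h3 : (∑ i ∈ I, Finsupp.single (Sum.inl i : S.V) 1) = a := by
      by_contra h
      rw [if_neg h] at ha
      exact ha rfl
    rw [← h3, map_sum, map_sum, Finset.card_eq_sum_ones, Nat.cast_sum]
    apply Finset.sum_congr rfl
    intro i _
    rw [zx_single, ldeg_inl]
  have h2 : ldeg S (zx S.V b) = 0 := by
    obtain ⟨u, rfl, -⟩ := coeff_rename_ne_zero _ _ _ (mem_support_iff.1 hb)
    have : ((ldeg S).comp ((zx S.V).comp (Finsupp.mapDomain.addMonoidHom Sum.inr))) = 0 := by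
      ext h
      simp only [AddMonoidHom.comp_apply, Finsupp.singleAddHom_apply,
        Finsupp.mapDomain.addMonoidHom_apply, Finsupp.mapDomain_single, zx_single, ldeg_inr,
        AddMonoidHom.zero_apply]
    exact DFunLike.congr_fun this u
  rw [h1, h2, add_zero]

theorem lam_ldeg (S : FlatCell) (hS : S.Wf) (m : S.V →₀ ℤ) (hm : m ∈ S.Lam) : ldeg S m = 0 := by
  have : S.Lam ≤ (ldeg S).ker := by
    rw [FlatCell.Lam, AddSubgroup.closure_le]
    rintro m ⟨I, hI, J, hJ, μ, hμ, ν, hν, rfl⟩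
    show ldeg S (zexp μ - zexp ν) = 0
    rw [map_sub, pol_ldeg S I μ hμ, pol_ldeg S J ν hν, hS.card I hI J hJ, sub_self]
  exact this hm

/-- scaling of the labels by two -/
noncomputable def sc2 (S : FlatCell) : Fr S.V →+* Fr S.V :=
  scal (fun v : S.V => Sum.elim (fun _ => (2:ℂ)) (fun _ => 1) v)
    (by rintro (i | h) <;> simp)

theorem alg2 (S : FlatCell) : algebraMap ℂ (Fr S.V) 2 = 2 := map_ofNat _ 2

theorem sc2_mono (S : FlatCell) (m : S.V →₀ ℤ) :
    sc2 S (S.mono m) = (2 : Fr S.V) ^ ldeg S m * S.mono m := by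
  rw [mono_eq, lmono_map]
  have h1 : (fun v : S.V => sc2 S (xx v)) = fun v =>
      (Sum.elim (fun _ => (2:Fr S.V)) (fun _ => 1) v) * xx v := by
    funext v
    rw [sc2, scal_x]
    rcases v with i | h <;> simp [alg2 S]
  rw [h1, lmono_mul]
  congr 1
  have hy : ∀ v : S.V, Sum.elim (fun _ => (2:Fr S.V)) (fun _ => 1) v ≠ 0 := by
    rintro (i | h) <;> simp
  induction m using Finsupp.induction_linear with
  | zero => simp [lmono_zero]
  | add f g hf hg => rw [lmono_add _ hy, hf, hg, map_add, zpow_add₀ (two_ne_zero)]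
  | single v n =>
    rw [lmono_single]
    rcases v with i | h
    · rw [ldeg_inl]; rfl
    · rw [ldeg_inr]; simp

theorem sc2_P (S : FlatCell) (I : Finset ℕ) : sc2 S (S.P I) = 2 ^ I.card * S.P I := by
  rw [FlatCell.P, map_ev, ev_eq, ev_eq]
  have h1 : ∀ i, sc2 S (S.x (Sum.inl i)) = 2 * S.x (Sum.inl i) := by
    intro i
    rw [flat_x, sc2, scal_x]
    simp [alg2 S]
  have h2 : ∀ h, sc2 S (S.x (Sum.inr h)) = S.x (Sum.inr h) := by
    intro h
    rw [flat_x, sc2, scal_x]
    simp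
  simp only [h1, h2]
  rw [Finset.prod_mul_distrib, Finset.prod_const, mul_assoc]

theorem two_zpow_inj {F : Type} [Field F] [CharZero F] {a b : ℤ} (h : (2:F) ^ a = 2 ^ b) : a = b := by
  have c : (((2:ℚ) ^ a : ℚ) : F) = (((2:ℚ) ^ b : ℚ) : F) := by
    push_cast; exact h
  have h3 : (2:ℚ) ^ a = 2 ^ b := by exact_mod_cast c
  exact zpow_right_injective₀ (by norm_num) (by norm_num) h3

theorem kgen (hmon : PosGeom.KmonStmt) : PosGeom.KgenStmt := by
  intro ι _ emb S hS d N b a hN
  obtain ⟨ν, hν⟩ := hN.eq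
  -- label degree of `ν`
  obtain ⟨I₀, hI₀⟩ := hS.wf.nonempty
  obtain ⟨i₀, rfl⟩ := hS.sub I₀ hI₀
  have hP0 : S.P (emb i₀) ≠ 0 := P_ne_zero S _ ((hS.wf.ne _).2 hI₀)
  have hb0 : ∀ j, sc2 S (S.mono (b j)) = S.mono (b j) := by
    intro j
    rw [sc2_mono, lam_ldeg S hS.wf _ (hN.mem j), zpow_zero, one_mul]
  have hdeg : ldeg S ν = (emb i₀).card := by
    have h1 := sc2_P S (emb i₀)
    rw [hν i₀, map_mul, map_evN, sc2_mono] at h1
    simp only [hb0] at h1
    rw [mul_assoc] at h1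
    rw [hν i₀] at hP0
    have h2 := mul_right_cancel₀ hP0 h1
    rw [← zpow_natCast] at h2
    exact two_zpow_inj h2
  have hdeg0 : ldeg S ν ≠ 0 := by
    rw [hdeg]
    have := hS.pos _ hI₀
    omega
  -- algebraic independence
  have hxi : AlgebraicIndependent ℂ (fun v : S.V => S.x v) := by
    have h1 : (fun v : S.V => S.x v) =
        (IsScalarTower.toAlgHom ℂ (MvPolynomial S.V ℂ) (Fr S.V)) ∘ X := rfl
    rw [h1]
    exact (MvPolynomial.algebraicIndependent_X S.V ℂ).map'
      (IsFractionRing.injective (MvPolynomial S.V ℂ) (Fr S.V))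
  have hli : LinearIndependent ℤ (Fin.cons ν b : Fin (d + 1) → (S.V →₀ ℤ)) := by
    rw [Fintype.linearIndependent_iff]
    intro g hg
    rw [Fin.sum_univ_succ] at hg
    simp only [Fin.cons_zero, Fin.cons_succ] at hg
    have h1 := congrArg (ldeg S) hg
    rw [map_add, map_sum, map_zsmul, map_zero] at h1
    have h2 : ∑ i : Fin d, ldeg S (g i.succ • b i) = 0 := by
      apply Finset.sum_eq_zero
      intro i _
      rw [map_zsmul, lam_ldeg S hS.wf _ (hN.mem i), smul_zero]
    rw [h2, add_zero, smul_eq_mul] at h1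
    have h3 : g 0 = 0 := (mul_eq_zero.1 h1).resolve_right hdeg0
    rw [h3, zero_smul, zero_add] at hg
    have h4 := Fintype.linearIndependent_iff.1 hN.ind (fun i => g i.succ) hg
    intro i
    refine Fin.cases h3 h4 i
  have hai := hmon S.F S.V (fun v => S.x v) hxi (d + 1) _ hli
  have hw : (fun j : Fin (d + 1) => ((Fin.cons ν b : Fin (d + 1) → (S.V →₀ ℤ)) j).prod
      fun v m => S.x v ^ m) = (Fin.cons (S.mono ν) (fun j => S.mono (b j)) : Fin (d + 1) → S.F) := by
    funext j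
    refine Fin.cases ?_ ?_ j
    · rfl
    · intro j; rfl
  rw [hw] at hai
  -- the injective homomorphism
  let Θ : Polynomial (MvPolynomial (Fin d) ℂ) →ₐ[ℂ] S.F :=
    (aeval (Fin.cons (S.mono ν) (fun j => S.mono (b j)) : Fin (d + 1) → S.F) :
      MvPolynomial (Fin (d + 1)) ℂ →ₐ[ℂ] S.F).comp
      ((finSuccEquiv ℂ d).symm : Polynomial (MvPolynomial (Fin d) ℂ) →ₐ[ℂ] MvPolynomial (Fin (d + 1)) ℂ)
  have hΘ : Function.Injective Θ := by
    have h1 : Function.Injective (aeval (Fin.cons (S.mono ν) (fun j => S.mono (b j)) :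
      Fin (d + 1) → S.F) : MvPolynomial (Fin (d + 1)) ℂ →ₐ[ℂ] S.F) := hai
    exact h1.comp (finSuccEquiv ℂ d).symm.injective
  have hΘX : Θ Polynomial.X = S.mono ν := by
    show aeval _ ((finSuccEquiv ℂ d).symm Polynomial.X) = _
    rw [← finSuccEquiv_X_zero, AlgEquiv.symm_apply_apply, aeval_X]
    rfl
  have hΘC : ∀ j, Θ (Polynomial.C (X j)) = S.mono (b j) := by
    intro j
    show aeval _ ((finSuccEquiv ℂ d).symm (Polynomial.C (X j))) = _
    rw [← finSuccEquiv_X_succ, AlgEquiv.symm_apply_apply, aeval_X]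
    rfl
  have hΘL : ∀ i, Θ (Polynomial.C (PosGeom.evN (fun j => (X j : MvPolynomial (Fin d) ℂ)) (N.L i))) =
      PosGeom.evN (fun j => S.mono (b j)) (N.L i) := by
    intro i
    have := map_evN ((Θ : Polynomial (MvPolynomial (Fin d) ℂ) →+* S.F).comp Polynomial.C)
      (fun j => (X j : MvPolynomial (Fin d) ℂ)) (N.L i)
    simp only [RingHom.comp_apply, RingHom.coe_coe] at this
    rw [this]
    simp only [hΘC]
  have hΘhom : ∀ F, Θ (N.hom F) = aeval (fun i => S.P (emb i)) F := by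
    intro F
    have : Θ.comp N.hom = aeval (fun i => S.P (emb i)) := by
      apply algHom_ext
      intro i
      rw [AlgHom.comp_apply, PosGeom.NCell.hom, aeval_X, aeval_X, map_mul, hΘX, hΘL, hν i]
    exact DFunLike.congr_fun this F
  refine ⟨?_, ?_⟩
  · intro F
    rw [← hΘhom]
    constructor
    · intro h
      have h1 : N.hom F = 0 := hΘ (h.trans (map_zero Θ).symm)
      exact h1
    · intro h
      have h1 : N.hom F = 0 := h
      rw [h1, map_zero]
  · intro e he j
    -- the field embedding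
    have hbi : AlgebraicIndependent ℂ (fun j => S.mono (b j)) :=
      hmon S.F S.V (fun v => S.x v) hxi d b hN.ind
    have hbi' : Function.Injective (aeval (fun j => S.mono (b j)) :
      MvPolynomial (Fin d) ℂ →ₐ[ℂ] S.F) := hbi
    let Φ : PosGeom.Fd d →ₐ[ℂ] S.F := IsFractionRing.liftAlgHom (g := aeval (fun j => S.mono (b j))) hbi'
    have hΦ : ∀ p, Φ (algebraMap (MvPolynomial (Fin d) ℂ) (PosGeom.Fd d) p) =
        aeval (fun j => S.mono (b j)) p := by
      intro p
      exact IsFractionRing.lift_algebraMap (g := (aeval (fun j => S.mono (b j)) :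
        MvPolynomial (Fin d) ℂ →ₐ[ℂ] S.F).toRingHom) hbi' p
    have hΦy : ∀ j, Φ (PosGeom.yv d j) = S.mono (b j) := by
      intro j
      rw [PosGeom.yv, hΦ, aeval_X]
    have hΦL : ∀ i, Φ (N.LF i) = PosGeom.evN (fun j => S.mono (b j)) (N.L i) := by
      intro i
      have := map_evN (Φ : PosGeom.Fd d →+* S.F) (PosGeom.yv d) (N.L i)
      simp only [RingHom.coe_coe] at this
      rw [PosGeom.NCell.LF, this]
      simp only [hΦy]
    have hΦa : ∀ (n : ℕ) (G : MvPolynomial ι ℂ), G.IsHomogeneous n →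
        aeval (fun i => S.P (emb i)) G = S.mono ν ^ n * Φ (aeval N.LF G) := by
      intro n G hG
      have h1 : (fun i => S.P (emb i)) = fun i => S.mono ν * Φ (N.LF i) := by
        funext i
        rw [hν i, hΦL]
      rw [h1, aeval_scale _ _ _ _ hG]
      congr 1
      rw [← AlgHom.comp_apply, comp_aeval]
    have h1 : N.var.SpecTo N.LF (N.ch e j) (PosGeom.yv d j) := by
      rw [he, PosGeom.NCell.ch, AlgEquiv.apply_symm_apply]
    obtain ⟨n, F, G, hF, hG, hG0, h2, h3⟩ := h1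
    have hν0 : S.mono ν ≠ 0 := lmono_ne_zero _ xx_ne_zero ν
    refine ⟨n, F, G, hF, hG, ?_, h2, ?_⟩
    · rw [hΦa n G hG]
      refine mul_ne_zero (pow_ne_zero _ hν0) ?_
      rw [Ne, map_eq_zero]
      exact hG0
    · rw [hΦa n G hG, hΦa n F hF, ← h3, map_mul, hΦy]
      ring

end ABCT.H60
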