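import Pool.Agent.Helper93_ABCT.StmtK
import Pool.Agent.Helper32_ABCT.Api2

/-!
# KLAU: evaluation of Laurent polynomials (MP_a17fcb_ag)
-/

set_option autoImplicit false

open MvPolynomial

namespace ABCT.H60

open ABCT FlatCell

theorem klau : PosGeom.KlauStmt := by
  intro S K _ _ x hx
  let φ : MvPolynomial S.V ℂ →ₐ[ℂ] K := aeval x
  let M0 : Submonoid (MvPolynomial S.V ℂ) := Submonoid.comap (φ : MvPolynomial S.V ℂ →* K)
    (nonZeroDivisors K)
  have hM0 : ∀ y : M0, IsUnit (φ y) := fun y =>
    IsUnit.mk0 _ (nonZeroDivisors.ne_zero y.2)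
  let ρ' : Localization M0 →ₐ[ℂ] K := IsLocalization.liftAlgHom (M := M0) (f := φ) hM0
  let ψ : MvPolynomial S.V ℂ →ₐ[ℂ] Fr S.V := IsScalarTower.toAlgHom ℂ (MvPolynomial S.V ℂ) (Fr S.V)
  have hψinj : Function.Injective ψ := IsFractionRing.injective (MvPolynomial S.V ℂ) (Fr S.V)
  have hne : ∀ y : M0, (y : MvPolynomial S.V ℂ) ≠ 0 := by
    intro y h
    have := nonZeroDivisors.ne_zero y.2
    apply this
    show φ (y : MvPolynomial S.V ℂ) = 0
    rw [h, map_zero]
  have hM1 : ∀ y : M0, IsUnit (ψ y) := fun y =>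
    IsUnit.mk0 _ (fun h => hne y (hψinj (h.trans (map_zero ψ).symm)))
  let ι' : Localization M0 →ₐ[ℂ] Fr S.V := IsLocalization.liftAlgHom (M := M0) (f := ψ) hM1
  have hM0le : M0 ≤ nonZeroDivisors (MvPolynomial S.V ℂ) := fun y hy =>
    mem_nonZeroDivisors_of_ne_zero (hne ⟨y, hy⟩)
  have hι' : ∀ a, ι' (algebraMap (MvPolynomial S.V ℂ) (Localization M0) a) = ψ a := by
    intro a
    exact IsLocalization.lift_eq _ a
  have hρ' : ∀ a, ρ' (algebraMap (MvPolynomial S.V ℂ) (Localization M0) a) = φ a := by
    intro a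
    exact IsLocalization.lift_eq _ a
  have hinj : Function.Injective ι' := by
    rw [injective_iff_map_eq_zero]
    intro a ha
    obtain ⟨p, s, rfl⟩ := IsLocalization.exists_mk'_eq M0 a
    have h1 : ι' (IsLocalization.mk' (Localization M0) p s *
        algebraMap (MvPolynomial S.V ℂ) (Localization M0) s) = 0 := by
      rw [map_mul, ha, zero_mul]
    rw [IsLocalization.mk'_spec, hι'] at h1
    have h2 : p = 0 := hψinj (h1.trans (map_zero ψ).symm)
    rw [h2, IsLocalization.mk'_zero]
  let ε : Localization M0 ≃ₐ[ℂ] ι'.range := AlgEquiv.ofInjective ι' hinj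
  let ρ : ι'.range →ₐ[ℂ] K := ρ'.comp (ε.symm : ι'.range →ₐ[ℂ] Localization M0)
  have key : ∀ (e : Localization M0) (h : ι' e ∈ ι'.range), ρ ⟨ι' e, h⟩ = ρ' e := by
    intro e h
    have : ε e = ⟨ι' e, h⟩ := rfl
    rw [← this]
    show ρ' (ε.symm (ε e)) = ρ' e
    rw [AlgEquiv.symm_apply_apply]
  have key2 : ∀ (f : Fr S.V) (g : K) (e : Localization M0), ι' e = f → ρ' e = g →
      ∃ h : f ∈ ι'.range, ρ ⟨f, h⟩ = g := by
    rintro f g e rfl rfl
    exact ⟨⟨e, rfl⟩, key e _⟩
  refine ⟨ι'.range, ρ, ?_, ?_⟩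
  · intro m
    have hX : ∀ v, (X v : MvPolynomial S.V ℂ) ∈ M0 := by
      intro v
      show φ (X v) ∈ nonZeroDivisors K
      rw [show φ (X v) = x v from aeval_X _ _]
      exact mem_nonZeroDivisors_of_ne_zero (hx v)
    let u : S.V → (Localization M0)ˣ := fun v =>
      (IsLocalization.map_units (Localization M0) (⟨X v, hX v⟩ : M0)).unit
    have hu : ∀ v, ((u v : (Localization M0)ˣ) : Localization M0) =
        algebraMap (MvPolynomial S.V ℂ) (Localization M0) (X v) := fun v => rfl
    have hz : ∀ {F : Type} [Field F] (g : Localization M0 →+* F) (v : S.V) (n : ℤ),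
        g (((u v ^ n : (Localization M0)ˣ)) : Localization M0) =
          (g (algebraMap (MvPolynomial S.V ℂ) (Localization M0) (X v))) ^ n := by
      intro F _ g v n
      have h1 : g (((u v ^ n : (Localization M0)ˣ)) : Localization M0) =
          ((Units.map (g : Localization M0 →* F) (u v ^ n) : Fˣ) : F) := rfl
      rw [h1, map_zpow, Units.val_zpow_eq_zpow_val]
      rfl
    refine key2 _ _ (m.prod fun v n => ((u v ^ n : (Localization M0)ˣ) : Localization M0)) ?_ ?_
    · rw [FlatCell.mono, Finsupp.prod, map_prod, Finsupp.prod]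
      apply Finset.prod_congr rfl
      intro v _
      have := hz (ι' : Localization M0 →+* Fr S.V) v (m v)
      have h3 : ι' (((u v ^ m v : (Localization M0)ˣ)) : Localization M0) =
        (ι' (algebraMap (MvPolynomial S.V ℂ) (Localization M0) (X v))) ^ m v := this
      rw [h3, hι']
      rfl
    · rw [Finsupp.prod, map_prod, Finsupp.prod]
      apply Finset.prod_congr rfl
      intro v _
      have := hz (ρ' : Localization M0 →+* K) v (m v)
      have h3 : ρ' (((u v ^ m v : (Localization M0)ˣ)) : Localization M0) =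
        (ρ' (algebraMap (MvPolynomial S.V ℂ) (Localization M0) (X v))) ^ m v := this
      rw [h3, hρ']
      rw [show φ (X v) = x v from aeval_X _ _]
  · intro I
    refine key2 _ _ (S.ev (fun v => algebraMap (MvPolynomial S.V ℂ) (Localization M0) (X v)) I) ?_ ?_
    · have := map_ev S (ι' : Localization M0 →+* Fr S.V)
        (fun v => algebraMap (MvPolynomial S.V ℂ) (Localization M0) (X v)) I
      have h3 : ι' (S.ev (fun v => algebraMap (MvPolynomial S.V ℂ) (Localization M0) (X v)) I) =
        S.ev (fun v => ι' (algebraMap (MvPolynomial S.V ℂ) (Localization M0) (X v))) I := this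
      rw [h3]
      simp only [hι']
      rfl
    · have := map_ev S (ρ' : Localization M0 →+* K)
        (fun v => algebraMap (MvPolynomial S.V ℂ) (Localization M0) (X v)) I
      have h3 : ρ' (S.ev (fun v => algebraMap (MvPolynomial S.V ℂ) (Localization M0) (X v)) I) =
        S.ev (fun v => ρ' (algebraMap (MvPolynomial S.V ℂ) (Localization M0) (X v))) I := this
      rw [h3]
      simp only [hρ']
      congr 1
      funext v
      exact aeval_X _ _

end ABCT.H60
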