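import Pool.Agent.Helper32_ABCT.Stmts2

/-!
# VMOE: the Moebius transformation (MP_a17fcb_ag)
-/

set_option autoImplicit false

open MvPolynomial

namespace ABCT.H60

open ABCT FlatCell

section Comb

variable {K : Type*}

theorem pairs_prod [CommMonoid K] (J : Finset ℕ) (e : ℕ → K) :
    ∏ p ∈ (J ×ˢ J).filter (fun p : ℕ × ℕ => p.1 < p.2), (e p.1 * e p.2) =
      ∏ a ∈ J, e a ^ (J.card - 1) := by
  rw [Finset.prod_mul_distrib, Finset.prod_filter, Finset.prod_filter]
  rw [Finset.prod_product, Finset.prod_product_right]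
  rw [← Finset.prod_mul_distrib]
  apply Finset.prod_congr rfl
  intro a ha
  rw [← Finset.prod_mul_distrib]
  have : ∀ b ∈ J, ((if a < b then e a else 1) * (if b < a then e a else 1)) =
      if b ≠ a then e a else 1 := by
    intro b _
    rcases lt_trichotomy a b with h | h | h
    · simp [h, h.ne', h.not_gt]
    · simp [h]
    · simp [h, h.ne, h.not_gt]
  rw [Finset.prod_congr rfl this, ← Finset.prod_filter, Finset.prod_const]
  congr 1
  rw [Finset.filter_ne', Finset.card_erase_of_mem ha]

/-- the nonroot positions of the elements of `I` -/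
def posJ (l : List ℕ) (I : Finset ℕ) : Finset ℕ :=
  (Finset.range (l.length - 1)).filter fun a => l.getD a 0 ∈ I

theorem prs_eq (l : List ℕ) (I : Finset ℕ) : Net.prs l I =
    (posJ l I ×ˢ posJ l I).filter (fun p : ℕ × ℕ => p.1 < p.2) := by
  ext ⟨a, b⟩
  simp only [Net.prs, posJ, Finset.mem_filter, Finset.mem_product, Finset.mem_range]
  tauto

/-- the last label -/
abbrev lst (l : List ℕ) : ℕ := l.getD (l.length - 1) 0

theorem getD_inj {l : List ℕ} (hl : l.Nodup) {a b : ℕ} (ha : a < l.length) (hb : b < l.length)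
    (h : l.getD a 0 = l.getD b 0) : a = b := by
  rw [List.getD_eq_getElem _ _ ha, List.getD_eq_getElem _ _ hb] at h
  exact (List.Nodup.getElem_inj_iff hl).1 h

theorem getD_ne_lst {l : List ℕ} (hl : l.Nodup) {a : ℕ} (ha : a < l.length - 1) :
    l.getD a 0 ≠ lst l := by
  intro h
  have := getD_inj hl (by omega) (by omega) h
  omega

theorem prsAll_prod [CommMonoid K] (l : List ℕ) (h1 : 1 ≤ l.length) (I : Finset ℕ)
    (g : ℕ × ℕ → K) :
    ∏ p ∈ prsAll l I, g p = (∏ p ∈ Net.prs l I, g p) *
      (if lst l ∈ I then ∏ a ∈ posJ l I, g (a, l.length - 1) else 1) := by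
  have : prsAll l I = Net.prs l I ∪
      (if lst l ∈ I then (posJ l I).image (fun a => (a, l.length - 1)) else ∅) := by
    ext ⟨a, b⟩
    split_ifs with h
    · simp only [prsAll, Net.prs, posJ, Finset.mem_union, Finset.mem_filter, Finset.mem_product,
        Finset.mem_range, Finset.mem_image, Prod.mk.injEq]
      constructor
      · rintro ⟨⟨ha, hb⟩, hab, h3, h4⟩
        by_cases hb1 : b < l.length - 1
        · left; exact ⟨⟨by omega, hb1⟩, hab, h3, h4⟩
        · right; exact ⟨a, ⟨by omega, h3⟩, rfl, by omega⟩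
      · rintro (⟨⟨ha, hb⟩, hab, h3, h4⟩ | ⟨a', ⟨ha', h3⟩, rfl, rfl⟩)
        · exact ⟨⟨by omega, by omega⟩, hab, h3, h4⟩
        · exact ⟨⟨by omega, by omega⟩, ha', h3, h⟩
    · simp only [prsAll, Net.prs, Finset.union_empty, Finset.mem_filter, Finset.mem_product,
        Finset.mem_range]
      constructor
      · rintro ⟨⟨ha, hb⟩, hab, h3, h4⟩
        have : b ≠ l.length - 1 := by rintro rfl; exact h h4
        exact ⟨⟨by omega, by omega⟩, hab, h3, h4⟩
      · rintro ⟨⟨ha, hb⟩, hab, h3, h4⟩
        exact ⟨⟨by omega, by omega⟩, hab, h3, h4⟩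
  rw [this, Finset.prod_union]
  · congr 1
    split_ifs
    · rw [Finset.prod_image]
      intro x _ y _ h
      simpa using h
    · simp
  · rw [Finset.disjoint_left]
    rintro ⟨a, b⟩ h h'
    simp only [Net.prs, Finset.mem_filter, Finset.mem_product, Finset.mem_range] at h
    split_ifs at h' with h2
    · simp only [Finset.mem_image, Prod.mk.injEq] at h'
      obtain ⟨a', -, -, rfl⟩ := h'
      omega
    · simp at h'

theorem erase_eq {l : List ℕ} (hl : l.Nodup) {I : Finset ℕ} (hI : I ⊆ l.toFinset) :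
    I.erase (lst l) = (posJ l I).image (fun a => l.getD a 0) := by
  ext i
  simp only [Finset.mem_erase, Finset.mem_image, posJ, Finset.mem_filter, Finset.mem_range]
  constructor
  · rintro ⟨h1, h2⟩
    have h3 := hI h2
    rw [List.mem_toFinset] at h3
    obtain ⟨a, ha, rfl⟩ := List.mem_iff_getElem.1 h3
    have h4 : l.getD a 0 = l[a] := List.getD_eq_getElem _ _ ha
    refine ⟨a, ⟨?_, by rw [h4]; exact h2⟩, h4⟩
    by_contra h
    have : a = l.length - 1 := by omega
    apply h1
    rw [lst, ← this, h4]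
  · rintro ⟨a, ⟨h1, h2⟩, rfl⟩
    exact ⟨getD_ne_lst hl h1, h2⟩

theorem posJ_inj {l : List ℕ} (hl : l.Nodup) (I : Finset ℕ) :
    Set.InjOn (fun a => l.getD a 0) (posJ l I : Set ℕ) := by
  intro a ha b hb h
  simp only [posJ, Finset.coe_filter, Finset.mem_range, Set.mem_ofPred_eq] at ha hb
  exact getD_inj hl (by omega) (by omega) h

theorem erase_prod [CommMonoid K] {l : List ℕ} (hl : l.Nodup) {I : Finset ℕ}
    (hI : I ⊆ l.toFinset) (g : ℕ → K) :
    ∏ i ∈ I.erase (lst l), g i = ∏ a ∈ posJ l I, g (l.getD a 0) := by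
  rw [erase_eq hl hI, Finset.prod_image (posJ_inj hl I)]

theorem posJ_card {l : List ℕ} (hl : l.Nodup) {I : Finset ℕ} (hI : I ⊆ l.toFinset) :
    (posJ l I).card = (I.erase (lst l)).card := by
  rw [erase_eq hl hI, Finset.card_image_of_injOn (posJ_inj hl I)]

theorem core [Field K] {l : List ℕ} (hl : l.Nodup) (h1 : 1 ≤ l.length) (r : ℕ) (t : ℕ → K)
    (he : ∀ a < l.length - 1, t (lst l) - t (l.getD a 0) ≠ 0) {I : Finset ℕ}
    (hI : I ∈ l.toFinset.powersetCard r) :
    ∏ p ∈ prsAll l I, (t (l.getD p.2 0) - t (l.getD p.1 0)) =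
      (∏ i ∈ I.erase (lst l), (t (lst l) - t i) ^ (r - 1)) *
        ∏ p ∈ Net.prs l I, (1 / (t (lst l) - t (l.getD p.2 0)) -
          1 / (t (lst l) - t (l.getD p.1 0))) := by
  rw [Finset.mem_powersetCard] at hI
  obtain ⟨hI, hr⟩ := hI
  rw [prsAll_prod l h1, erase_prod hl hI]
  have hJ : ∀ a ∈ posJ l I, t (lst l) - t (l.getD a 0) ≠ 0 := by
    intro a ha
    simp only [posJ, Finset.mem_filter, Finset.mem_range] at ha
    exact he a ha.1
  have h2 : ∏ p ∈ Net.prs l I, (t (l.getD p.2 0) - t (l.getD p.1 0)) =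
      (∏ p ∈ Net.prs l I, (1 / (t (lst l) - t (l.getD p.2 0)) -
          1 / (t (lst l) - t (l.getD p.1 0)))) *
      ∏ a ∈ posJ l I, (t (lst l) - t (l.getD a 0)) ^ ((posJ l I).card - 1) := by
    rw [← pairs_prod, ← prs_eq, ← Finset.prod_mul_distrib]
    apply Finset.prod_congr rfl
    rintro ⟨a, b⟩ hp
    rw [prs_eq] at hp
    simp only [Finset.mem_filter, Finset.mem_product] at hp
    have ha := hJ a hp.1.1
    have hb := hJ b hp.1.2
    simp only
    field_simp
    ring
  rw [h2]
  have hc := posJ_card hl hI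
  by_cases hm : lst l ∈ I
  · rw [if_pos hm]
    rw [Finset.card_erase_of_mem hm, hr] at hc
    rw [mul_assoc, ← Finset.prod_mul_distrib, mul_comm]
    congr 1
    apply Finset.prod_congr rfl
    intro a ha
    have : 0 < (posJ l I).card := Finset.card_pos.2 ⟨a, ha⟩
    rw [← pow_succ]
    congr 1
    omega
  · rw [if_neg hm]
    rw [Finset.erase_eq_of_notMem hm, hr] at hc
    rw [hc, mul_one, mul_comm]

theorem Q_eq_Pg [Field K] {l : List ℕ} (hl : l.Nodup) (h1 : 1 ≤ l.length) (r : ℕ) (k : K)
    (c t u : ℕ → K) (he : ∀ a < l.length - 1, t (lst l) - t (l.getD a 0) ≠ 0)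
    (hu : ∀ a b, a < b → b < l.length - 1 → ∑ h ∈ Finset.Ico a b, u h =
      1 / (t (lst l) - t (l.getD b 0)) - 1 / (t (lst l) - t (l.getD a 0))) :
    Q l r (k ^ r) c t =
      Pg l r (fun i => k * c i * (if i = lst l then 1 else (t (lst l) - t i) ^ (r - 1))) u := by
  funext I
  unfold Q Pg
  split_ifs with hI
  · rw [core hl h1 r t he hI]
    have h2 : ∏ p ∈ Net.prs l I, (1 / (t (lst l) - t (l.getD p.2 0)) -
          1 / (t (lst l) - t (l.getD p.1 0))) =
        ∏ p ∈ Net.prs l I, ∑ h ∈ Finset.Ico p.1 p.2, u h := by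
      apply Finset.prod_congr rfl
      rintro ⟨a, b⟩ hp
      rw [prs_eq] at hp
      simp only [Finset.mem_filter, Finset.mem_product, posJ, Finset.mem_range] at hp
      rw [hu a b hp.2 hp.1.2.1]
    rw [h2, Finset.prod_mul_distrib, Finset.prod_mul_distrib, Finset.prod_const]
    rw [Finset.mem_powersetCard] at hI
    rw [hI.2]
    have h3 : ∏ i ∈ I, (if i = lst l then 1 else (t (lst l) - t i) ^ (r - 1)) =
        ∏ i ∈ I.erase (lst l), (t (lst l) - t i) ^ (r - 1) := by
      rw [← Finset.filter_ne', Finset.prod_filter]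
      apply Finset.prod_congr rfl
      intro i _
      by_cases h : i = lst l
      · simp [h]
      · simp
    rw [h3]
    ring
  · rfl

theorem Pg_eq_Q [Field K] {l : List ℕ} (hl : l.Nodup) (h1 : 1 ≤ l.length) (r : ℕ)
    (c u s : ℕ → K) (hs : ∀ a ≤ l.length, s a ≠ 0)
    (hu : ∀ a b, a < b → b < l.length - 1 → ∑ h ∈ Finset.Ico a b, u h = s b - s a) :
    Pg l r c u = Q l r 1 (fun i => if i = lst l then c i else c i * s (l.idxOf i) ^ (r - 1))
      (fun i => if i = lst l then 0 else - (s (l.idxOf i))⁻¹) := by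
  have hidx : ∀ a, a < l.length → l.idxOf (l.getD a 0) = a := by
    intro a ha
    rw [List.getD_eq_getElem _ _ ha]
    exact List.Nodup.idxOf_getElem hl a ha
  have h := Q_eq_Pg hl h1 r (1 : K)
    (fun i => if i = lst l then c i else c i * s (l.idxOf i) ^ (r - 1))
    (fun i => if i = lst l then 0 else - (s (l.idxOf i))⁻¹) u ?_ ?_
  · rw [one_pow] at h
    rw [h]
    congr 1
    funext i
    by_cases hi : i = lst l
    · simp [hi]
    · simp only [hi, if_false, if_true, one_mul, zero_sub, neg_neg]
      have : s (l.idxOf i) ≠ 0 := hs _ (List.idxOf_le_length)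
      rw [inv_pow, mul_assoc, mul_inv_cancel₀ (pow_ne_zero _ this), mul_one]
  · intro a ha
    have h2 := getD_ne_lst hl ha
    simp only [h2, if_false, if_true, zero_sub, neg_neg]
    rw [hidx a (by omega)]
    exact inv_ne_zero (hs a (by omega))
  · intro a b hab hb
    have h2 := getD_ne_lst hl hb
    have h3 := getD_ne_lst hl (lt_trans hab hb)
    simp only [h2, h3, if_false, if_true, zero_sub, neg_neg]
    rw [hidx a (by omega), hidx b (by omega), one_div, one_div, inv_inv, inv_inv]
    exact hu a b hab hb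

theorem Pg_congr [CommSemiring K] {l : List ℕ} (r : ℕ) {c c' : ℕ → K} (u : ℕ → K)
    (h : ∀ i ∈ l, c i = c' i) : Pg l r c u = Pg l r c' u := by
  funext I
  unfold Pg
  split_ifs with hI
  · congr 1
    apply Finset.prod_congr rfl
    intro i hi
    exact h i (List.mem_toFinset.1 ((Finset.mem_powersetCard.1 hI).1 hi))
  · rfl

theorem tele [AddCommGroup K] (s : ℕ → K) (a b : ℕ) (hab : a ≤ b) :
    ∑ h ∈ Finset.Ico a b, (s (h + 1) - s h) = s b - s a :=
  Finset.sum_Ico_sub s hab

theorem tele2 [AddCommGroup K] (u : ℕ → K) (σ : K) (a b : ℕ) (hab : a ≤ b) :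
    ∑ h ∈ Finset.Ico a b, u h =
      (σ + ∑ h ∈ Finset.range b, u h) - (σ + ∑ h ∈ Finset.range a, u h) := by
  rw [Finset.sum_Ico_eq_sub _ hab]
  abel

end Comb

theorem moe1 (l : List ℕ) (r : ℕ) (hl : l.Nodup) (hr : 1 ≤ r) (h3 : 3 ≤ l.length)
    (z : Finset ℕ → ℝ) :
    z ∈ ZV l r ↔ ∃ c u : ℕ → ℝ, (∀ i, 0 < c i) ∧ (∀ h, 0 < u h) ∧ z = Pg l r c u := by
  constructor
  · rintro ⟨κ, c, t, hκ, hc, ht, rfl⟩
    have hmono : ∀ a b, a < b → b < l.length → t (l.getD a 0) < t (l.getD b 0) := by
      intro a b hab hb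
      rw [List.getD_eq_getElem _ _ hb, List.getD_eq_getElem _ _ (lt_trans hab hb)]
      exact List.pairwise_iff_getElem.1 ht a b (lt_trans hab hb) hb hab
    have hpos : ∀ a < l.length - 1, 0 < t (lst l) - t (l.getD a 0) := by
      intro a ha
      have := hmono a (l.length - 1) ha (by omega)
      show 0 < t (l.getD (l.length - 1) 0) - t (l.getD a 0)
      linarith
    set s : ℕ → ℝ := fun a => 1 / (t (lst l) - t (l.getD a 0)) with hs
    set u : ℕ → ℝ := fun h => if h + 1 < l.length - 1 then s (h + 1) - s h else 1 with hu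
    have hu1 : ∀ h, 0 < u h := by
      intro h
      rw [hu]
      simp only
      split_ifs with hh
      · rw [hs]
        simp only
        have h1 := hpos (h + 1) hh
        have h2 := hmono h (h + 1) (by omega) (by omega)
        have := one_div_lt_one_div_of_lt h1 (show t (lst l) - t (l.getD (h + 1) 0) <
          t (lst l) - t (l.getD h 0) by linarith)
        linarith
      · exact one_pos
    have hr0 : (r : ℝ) ≠ 0 := by positivity
    have hk : (κ ^ ((1 : ℝ) / r)) ^ r = κ := by
      rw [← Real.rpow_natCast, ← Real.rpow_mul hκ.le, one_div, inv_mul_cancel₀ hr0, Real.rpow_one]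
    have h := Q_eq_Pg hl (by omega) r (κ ^ ((1 : ℝ) / r)) c t u (fun a ha => (hpos a ha).ne') ?_
    · rw [hk] at h
      refine ⟨fun i => if i ∈ l then κ ^ ((1 : ℝ) / r) * c i *
        (if i = lst l then 1 else (t (lst l) - t i) ^ (r - 1)) else 1, u, ?_, hu1, ?_⟩
      · intro i
        have hk0 : 0 < κ ^ ((1 : ℝ) / r) := Real.rpow_pos_of_pos hκ _
        by_cases hi : i ∈ l
        · simp only [hi, if_true]
          refine mul_pos (mul_pos hk0 (hc i)) ?_
          split_ifs with hi2
          · exact one_pos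
          · apply pow_pos
            obtain ⟨a, ha, rfl⟩ := List.mem_iff_getElem.1 hi
            have h4 : l.getD a 0 = l[a] := List.getD_eq_getElem _ _ ha
            rw [← h4]
            apply hpos
            by_contra h5
            have : a = l.length - 1 := by omega
            apply hi2
            rw [lst, ← this, h4]
        · simp only [hi, if_false]
          exact one_pos
      · rw [h]
        apply Pg_congr
        intro i hi
        simp only [hi, if_true]
    · intro a b hab hb
      rw [← tele s a b hab.le]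
      apply Finset.sum_congr rfl
      intro h hh
      rw [Finset.mem_Ico] at hh
      rw [hu]
      simp only
      rw [if_pos (by omega)]
  · rintro ⟨c, u, hc, hu, rfl⟩
    set s : ℕ → ℝ := fun a => 1 + ∑ h ∈ Finset.range a, u h with hs
    have hs0 : ∀ a, 0 < s a := by
      intro a
      have : 0 ≤ ∑ h ∈ Finset.range a, u h := Finset.sum_nonneg fun h _ => (hu h).le
      rw [hs]; simp only; linarith
    rw [Pg_eq_Q hl (by omega) r c u s (fun a _ => (hs0 a).ne') (fun a b hab _ => tele2 u 1 a b hab.le)]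
    refine ⟨1, _, _, one_pos, ?_, ?_, rfl⟩
    · intro i
      split_ifs
      · exact hc i
      · exact mul_pos (hc i) (pow_pos (hs0 _) _)
    · rw [List.pairwise_iff_getElem]
      intro a b ha hb hab
      have hga : l[a] = l.getD a 0 := (List.getD_eq_getElem _ _ ha).symm
      have hgb : l[b] = l.getD b 0 := (List.getD_eq_getElem _ _ hb).symm
      have hia : l.idxOf l[a] = a := List.Nodup.idxOf_getElem hl a ha
      have hib : l.idxOf l[b] = b := List.Nodup.idxOf_getElem hl b hb
      have hna : l[a] ≠ lst l := by rw [hga]; exact getD_ne_lst hl (by omega)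
      simp only [hna, if_false]
      split_ifs with h
      · rw [neg_lt_zero]; exact inv_pos.2 (hs0 _)
      · rw [hia, hib, neg_lt_neg_iff]
        apply inv_strictAnti₀ (hs0 a)
        have : s b - s a = ∑ h ∈ Finset.Ico a b, u h := (tele2 u 1 a b hab.le).symm
        have h2 : 0 < ∑ h ∈ Finset.Ico a b, u h :=
          Finset.sum_pos (fun h _ => hu h) (Finset.nonempty_Ico.2 hab)
        linarith

theorem map_Q' {R T : Type*} [CommRing R] [CommRing T] (g : R →+* T) (l : List ℕ) (r : ℕ) (κ : R)
    (c t : ℕ → R) (I : Finset ℕ) :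
    g (Q l r κ c t I) = Q l r (g κ) (fun i => g (c i)) (fun i => g (t i)) I := by
  unfold Q
  split_ifs
  · simp [map_mul, map_prod, map_sub]
  · simp

theorem moe2 (l : List ℕ) (r : ℕ) (f : MvPolynomial (Finset ℕ) ℂ) (hl : l.Nodup) (hr : 1 ≤ r)
    (h3 : 3 ≤ l.length) :
    (∀ (κ : ℂ) (c t : ℕ → ℂ), aeval (Q l r κ c t) f = 0) ↔
      ∀ c u : ℕ → ℂ, aeval (Pg l r c u) f = 0 := by
  constructor
  · intro hf c u
    obtain ⟨σ, hσ⟩ := Infinite.exists_notMem_finset
      ((Finset.range (l.length + 1)).image fun a => - ∑ h ∈ Finset.range a, u h)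
    have hs : ∀ a ≤ l.length, σ + ∑ h ∈ Finset.range a, u h ≠ 0 := by
      intro a ha h
      apply hσ
      rw [Finset.mem_image]
      exact ⟨a, Finset.mem_range.2 (by omega), (eq_neg_of_add_eq_zero_left h).symm⟩
    rw [Pg_eq_Q hl (by omega) r c u (fun a => σ + ∑ h ∈ Finset.range a, u h) hs
      (fun a b hab _ => tele2 u σ a b hab.le)]
    exact hf _ _ _
  · intro hf κ c t
    -- good points
    have good : ∀ t : ℕ → ℂ, (∀ a < l.length - 1, t (lst l) - t (l.getD a 0) ≠ 0) →
        aeval (Q l r κ c t) f = 0 := by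
      intro t ht
      obtain ⟨k, hk⟩ := IsAlgClosed.exists_pow_nat_eq κ (show 0 < r by omega)
      rw [← hk]
      rw [Q_eq_Pg hl (by omega) r k c t (fun h => (1 / (t (lst l) - t (l.getD (h + 1) 0))) -
        (1 / (t (lst l) - t (l.getD h 0)))) ht
        (fun a b hab _ => tele (fun a => 1 / (t (lst l) - t (l.getD a 0))) a b hab.le)]
      exact hf _ _
    set p : Polynomial ℂ := aeval (Q l r (Polynomial.C κ) (fun i => Polynomial.C (c i))
      (fun i => if i = lst l then Polynomial.X else Polynomial.C (t i))) f with hp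
    have hev : ∀ T : ℂ, p.eval T = aeval (Q l r κ c (fun i => if i = lst l then T else t i)) f := by
      intro T
      have h1 : p.eval T = (Polynomial.aeval T) p := by rw [Polynomial.coe_aeval_eq_eval]
      rw [h1, hp, ← AlgHom.comp_apply, comp_aeval]
      congr 2
      funext I
      have := map_Q' (Polynomial.aeval T : Polynomial ℂ →ₐ[ℂ] ℂ).toRingHom l r (Polynomial.C κ)
        (fun i => Polynomial.C (c i)) (fun i => if i = lst l then Polynomial.X else Polynomial.C (t i)) I
      simp only [AlgHom.toRingHom_eq_coe, RingHom.coe_coe, Polynomial.aeval_C] at this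
      rw [this]
      congr 1
      funext i
      split_ifs <;> simp
    have hp0 : p = 0 := by
      apply Polynomial.eq_zero_of_infinite_isRoot
      apply Set.Infinite.mono (s := (((Finset.range (l.length - 1)).image fun a => t (l.getD a 0) :
        Finset ℂ) : Set ℂ)ᶜ)
      · intro T hT
        rw [Set.mem_ofPred_eq, Polynomial.IsRoot, hev]
        apply good
        intro a ha
        have h2 := getD_ne_lst hl ha
        simp only [h2, if_false, if_true]
        intro h
        apply hT
        rw [Finset.mem_coe, Finset.mem_image]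
        exact ⟨a, Finset.mem_range.2 ha, (sub_eq_zero.1 h).symm⟩
      · exact Set.Finite.infinite_compl (Finset.finite_toSet _)
    have := hev (t (lst l))
    rw [hp0, Polynomial.eval_zero] at this
    rw [this]
    have h5 : (fun i => if i = lst l then t (lst l) else t i) = t := by
      funext i
      split_ifs with h
      · rw [h]
      · rfl
    rw [h5]

theorem vmoe : MoebStmt := ⟨moe1, moe2⟩

end ABCT.H60
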