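import Pool.Agent.Helper32_ABCT.Stmts2

/-!
# VVAL: the valuation ring (MP_a17fcb_ag)
-/

set_option autoImplicit false

open MvPolynomial

namespace ABCT.H60

open ABCT FlatCell

theorem map_Q {R T : Type*} [CommRing R] [CommRing T] (g : R →+* T) (l : List ℕ) (r : ℕ) (κ : R)
    (c t : ℕ → R) (I : Finset ℕ) :
    g (Q l r κ c t I) = Q l r (g κ) (fun i => g (c i)) (fun i => g (t i)) I := by
  unfold Q
  split_ifs
  · simp [map_mul, map_prod, map_sub]
  · simp

theorem Q_kappa {R : Type*} [CommRing R] (l : List ℕ) (r : ℕ) (κ : R)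
    (c t : ℕ → R) (I : Finset ℕ) :
    Q l r κ c t I = κ * Q l r 1 c t I := by
  unfold Q
  split_ifs
  · ring
  · simp

abbrev W : Type := Option (ℕ ⊕ ℕ)

theorem key (l : List ℕ) (r : ℕ) (z : Finset ℕ → ℝ) (hz : z ∈ XV l r)
    (f : MvPolynomial (Finset ℕ) ℂ)
    (hf : aeval (Q l r (algebraMap (MvPolynomial W ℂ) (Fr W) (X none))
      (fun i => algebraMap (MvPolynomial W ℂ) (Fr W) (X (some (Sum.inl i))))
      (fun i => algebraMap (MvPolynomial W ℂ) (Fr W) (X (some (Sum.inr i))))) f = 0) :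
    aeval (fun I => ((z I : ℝ) : ℂ)) f = 0 := by
  apply hz f
  intro κ c t
  have h1 : algebraMap (MvPolynomial W ℂ) (Fr W)
      (aeval (Q l r (X none : MvPolynomial W ℂ) (fun i => X (some (Sum.inl i)))
        (fun i => X (some (Sum.inr i)))) f) = 0 := by
    rw [← hf]
    have : (algebraMap (MvPolynomial W ℂ) (Fr W)) = ((Algebra.ofId (MvPolynomial W ℂ) (Fr W)).restrictScalars ℂ : MvPolynomial W ℂ →ₐ[ℂ] Fr W).toRingHom := rfl
    rw [this]
    simp only [AlgHom.toRingHom_eq_coe, RingHom.coe_coe]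
    rw [← AlgHom.comp_apply, comp_aeval]
    congr 2
    funext I
    exact map_Q ((Algebra.ofId (MvPolynomial W ℂ) (Fr W)).restrictScalars ℂ : MvPolynomial W ℂ →ₐ[ℂ] Fr W).toRingHom l r _ _ _ I
  have h2 : aeval (Q l r (X none : MvPolynomial W ℂ) (fun i => X (some (Sum.inl i)))
        (fun i => X (some (Sum.inr i)))) f = 0 := by
    apply IsFractionRing.injective (MvPolynomial W ℂ) (Fr W)
    rw [h1, map_zero]
  let pt : W → ℂ := fun w => match w with
    | none => κ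
    | some (Sum.inl i) => c i
    | some (Sum.inr i) => t i
  have h3 := congrArg (aeval pt : MvPolynomial W ℂ →ₐ[ℂ] ℂ) h2
  rw [← AlgHom.comp_apply, comp_aeval, map_zero] at h3
  rw [← h3]
  congr 2
  funext I
  have := map_Q (aeval pt : MvPolynomial W ℂ →ₐ[ℂ] ℂ).toRingHom l r (X none) (fun i => X (some (Sum.inl i)))
        (fun i => X (some (Sum.inr i))) I
  simp only [AlgHom.toRingHom_eq_coe, RingHom.coe_coe, aeval_X] at this
  rw [this]

theorem vval : ValStmt := by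
  intro l r z hz hz0
  obtain ⟨I₀, hI₀⟩ : ∃ I, z I ≠ 0 := by
    by_contra h
    push Not at h
    exact hz0 (funext h)
  set κ : Fr W := algebraMap (MvPolynomial W ℂ) (Fr W) (X none) with hκ
  set c : ℕ → Fr W := fun i => algebraMap (MvPolynomial W ℂ) (Fr W) (X (some (Sum.inl i))) with hc
  set t : ℕ → Fr W := fun i => algebraMap (MvPolynomial W ℂ) (Fr W) (X (some (Sum.inr i))) with ht
  set φ : MvPolynomial (Finset ℕ) ℂ →ₐ[ℂ] Fr W := aeval (Q l r κ c t) with hφ
  have hkey : ∀ f, φ f = 0 → aeval (fun I => ((z I : ℝ) : ℂ)) f = 0 := key l r z hz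
  let B : Subring (Fr W) := φ.toRingHom.range
  let ev : MvPolynomial (Finset ℕ) ℂ →ₐ[ℂ] ℂ := aeval (fun I => ((z I : ℝ) : ℂ))
  let J : Ideal (MvPolynomial (Finset ℕ) ℂ) := RingHom.ker ev.toRingHom
  let ρ : MvPolynomial (Finset ℕ) ℂ →+* B := φ.toRingHom.rangeRestrict
  have hρ : Function.Surjective ρ := φ.toRingHom.rangeRestrict_surjective
  have hne : J.map ρ ≠ ⊤ := by
    intro h
    rw [Ideal.eq_top_iff_one, Ideal.mem_map_iff_of_surjective ρ hρ] at h
    obtain ⟨f, hf, hf1⟩ := h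
    have h1 : φ (f - 1) = 0 := by
      have := congrArg Subtype.val hf1
      rw [map_sub, map_one]
      rw [sub_eq_zero]
      exact this
    have h2 := hkey _ h1
    rw [map_sub, map_one] at h2
    have h3 : aeval (fun I => ((z I : ℝ) : ℂ)) f = 0 := hf
    rw [h3] at h2
    norm_num at h2
  obtain ⟨v, hBv, hv⟩ := Ideal.image_subset_nonunits_valuationSubring (J.map ρ) hne
  have hlt : ∀ f : MvPolynomial (Finset ℕ) ℂ, ev f = 0 → v.valuation (φ f) < 1 := by
    intro f hf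
    have : φ f ∈ v.nonunits := by
      apply hv
      refine ⟨ρ f, ?_, rfl⟩
      exact Ideal.mem_map_of_mem ρ hf
    exact this
  have hmem : ∀ f : MvPolynomial (Finset ℕ) ℂ, φ f ∈ v := fun f => hBv ⟨f, rfl⟩
  have hconst : ∀ a : ℂ, algebraMap ℂ (Fr W) a ∈ v := by
    intro a
    have := hmem (C a)
    rw [hφ] at this
    simpa using this
  have hconst1 : ∀ a : ℂ, a ≠ 0 → v.valuation (algebraMap ℂ (Fr W) a) = 1 := by
    intro a ha
    have h1 : v.valuation (algebraMap ℂ (Fr W) a) ≤ 1 := (v.valuation_le_one_iff _).2 (hconst a)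
    have h2 : v.valuation (algebraMap ℂ (Fr W) a⁻¹) ≤ 1 := (v.valuation_le_one_iff _).2 (hconst a⁻¹)
    rw [map_inv₀, map_inv₀] at h2
    apply le_antisymm h1
    by_contra h
    push Not at h
    have h3 : (v.valuation (algebraMap ℂ (Fr W) a)) ≠ 0 := by
      rw [Ne, map_eq_zero, map_eq_zero]; exact ha
    have := (one_lt_inv₀ (zero_lt_iff.2 h3)).2 h
    exact absurd h2 (not_le.2 this)
  have hQI : ∀ I, φ (X I) = Q l r κ c t I := by
    intro I; rw [hφ, aeval_X]
  have hQ0 : v.valuation (Q l r κ c t I₀) = 1 := by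
    have h1 : v.valuation (φ (X I₀ - C ((z I₀ : ℝ) : ℂ))) < 1 := by
      apply hlt
      simp [ev]
    have h2 : Q l r κ c t I₀ = φ (X I₀ - C ((z I₀ : ℝ) : ℂ)) + algebraMap ℂ (Fr W) ((z I₀ : ℝ) : ℂ) := by
      rw [map_sub, hQI]
      have : φ (C ((z I₀ : ℝ) : ℂ)) = algebraMap ℂ (Fr W) ((z I₀ : ℝ) : ℂ) := by
        rw [hφ]; simp
      rw [this]; ring
    have h3 : v.valuation (algebraMap ℂ (Fr W) ((z I₀ : ℝ) : ℂ)) = 1 :=
      hconst1 _ (by exact_mod_cast hI₀)
    rw [h2, Valuation.map_add_eq_of_lt_right _ (by rw [h3]; exact h1), h3]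
  have hκ0 : κ ≠ 0 := by
    rw [hκ]
    intro h
    rw [← map_zero (algebraMap (MvPolynomial W ℂ) (Fr W))] at h
    exact X_ne_zero _ (IsFractionRing.injective (MvPolynomial W ℂ) (Fr W) h)
  refine ⟨Fr W, inferInstance, inferInstance, v, c, t, I₀, ?_, ?_, hI₀, hconst, ?_⟩
  · intro i h
    rw [hc, ← map_zero (algebraMap (MvPolynomial W ℂ) (Fr W))] at h
    exact X_ne_zero _ (IsFractionRing.injective (MvPolynomial W ℂ) (Fr W) h)
  · intro i _ j _ hij h
    have := IsFractionRing.injective (MvPolynomial W ℂ) (Fr W) h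
    have := X_injective this
    simp at this
    exact hij this
  · intro I
    have e0 : Q l r κ c t I₀ ≠ 0 := by
      intro h; rw [h, map_zero] at hQ0; exact zero_ne_one hQ0
    have e1 : Q l r 1 c t I₀ ≠ 0 := by
      intro h; rw [Q_kappa, h, mul_zero] at e0; exact e0 rfl
    have hz1 : algebraMap ℂ (Fr W) ((z I₀ : ℝ) : ℂ) ≠ 0 := by
      rw [Ne, map_eq_zero]; exact_mod_cast hI₀
    have h1 : Q l r 1 c t I / Q l r 1 c t I₀ - algebraMap ℂ (Fr W) (((z I / z I₀ : ℝ) : ℂ)) =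
        φ (C ((z I₀ : ℝ) : ℂ) * X I - C ((z I : ℝ) : ℂ) * X I₀) /
          (algebraMap ℂ (Fr W) ((z I₀ : ℝ) : ℂ) * Q l r κ c t I₀) := by
      have e2 : ∀ a : ℂ, φ (C a) = algebraMap ℂ (Fr W) a := by
        intro a; rw [hφ]; simp
      rw [map_sub, map_mul, map_mul, hQI, hQI, e2, e2]
      have e3 : algebraMap ℂ (Fr W) (((z I / z I₀ : ℝ) : ℂ)) =
          algebraMap ℂ (Fr W) ((z I : ℝ) : ℂ) / algebraMap ℂ (Fr W) ((z I₀ : ℝ) : ℂ) := by
        rw [Complex.ofReal_div, map_div₀]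
      rw [e3, Q_kappa l r κ c t I, Q_kappa l r κ c t I₀]
      field_simp
    rw [h1, map_div₀, map_mul, hQ0, hconst1 _ (by exact_mod_cast hI₀), mul_one, div_one]
    apply hlt
    simp [ev]
    ring

end ABCT.H60
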